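import Mathlib
import Pool.Agent.Helper25.Ram
import Pool.Agent.Helper69.BQ.Defs

/-!
# Project BQ (`MP_282bb6_nt`), piece B9
-/

namespace Pool.Agent.Helper81.BQ

open Module NumberField Pool.Agent.Helper25.Biq Pool.Agent.Helper69.BQ

section field

variable {K : Type} [Field K] [NumberField K] [IsGalois ℚ K] {g12 g13 g23 : ℤ}

/-- B9. A rational number which is the square of an ideal of the fixed field of `σ` is supported on
the primes that divide `2 g12 g13`. -/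
lemma supp_Sel (D : Dat K g12 g13 g23) (hA : Arith g12 g13 g23) {c : ℚ} (hc : c ≠ 0)
    (h : sc (algebraMap ℚ (fx D.σ) c) ∈ Sel (fx D.σ)) {p : ℕ} (hp : p.Prime) (hp2 : p ≠ 2)
    (hpd : ¬ (p : ℤ) ∣ g12 * g13) : vv p c = 0 := by
  have _ := hA
  have := Fact.mk hp
  obtain ⟨a, b, hab, hsq⟩ := Nat.sq_mul_squarefree (c.num * c.den).natAbs
  have hn0 : (c.num * c.den) ≠ 0 :=
    mul_ne_zero (Rat.num_ne_zero.2 hc) (by exact_mod_cast c.den_nz)
  have hN0 : b ^ 2 * a ≠ 0 := by rw [hab]; exact Int.natAbs_ne_zero.2 hn0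
  have ha0 : a ≠ 0 := right_ne_zero_of_mul hN0
  have hb0 : b ≠ 0 := by
    rintro rfl
    simp at hN0
  -- sign
  obtain ⟨ε, hε, hnε⟩ : ∃ ε : ℤ, (ε = 1 ∨ ε = -1) ∧ c.num * c.den = ε * ((b : ℤ) ^ 2 * a) := by
    rcases Int.natAbs_eq (c.num * c.den) with h1 | h1
    · refine ⟨1, Or.inl rfl, ?_⟩
      rw [one_mul, h1, ← hab]; push_cast; rfl
    · refine ⟨-1, Or.inr rfl, ?_⟩
      rw [neg_one_mul, h1, ← hab]; push_cast; rfl
  have hε0 : ε ≠ 0 := by rcases hε with rfl | rfl <;> norm_num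
  have hden : (c.den : ℚ) ≠ 0 := by exact_mod_cast c.den_nz
  have hbQ : (b : ℚ) ≠ 0 := by exact_mod_cast hb0
  have haQ : (a : ℚ) ≠ 0 := by exact_mod_cast ha0
  have hεQ : (ε : ℚ) ≠ 0 := by exact_mod_cast hε0
  -- `c = (ε a) (b / den)²`
  have hceq : c = (ε * a : ℚ) * ((b : ℚ) / c.den) ^ 2 := by
    have h1 : c * c.den = c.num := Rat.mul_den_eq_num c
    have h2 : ((c.num * c.den : ℤ) : ℚ) = ((ε * ((b : ℤ) ^ 2 * a) : ℤ) : ℚ) := by rw [hnε]
    push_cast at h2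
    rw [← h1] at h2
    field_simp
    linear_combination h2
  have hsc : sc (algebraMap ℚ (fx D.σ) c) =
      sc (algebraMap (𝓞 (fx D.σ)) (fx D.σ) ((ε * a : ℤ) : 𝓞 (fx D.σ))) := by
    have hne : algebraMap ℚ (fx D.σ) (ε * a : ℚ) ≠ 0 :=
      (map_ne_zero _).2 (mul_ne_zero hεQ haQ)
    have hne2 : algebraMap ℚ (fx D.σ) ((b : ℚ) / c.den) ≠ 0 :=
      (map_ne_zero _).2 (div_ne_zero hbQ hden)
    conv_lhs => rw [hceq]
    rw [map_mul, map_pow, sc_mul hne (pow_ne_zero 2 hne2), sc_sq, add_zero]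
    congr 1
    simp
  rw [hsc] at h
  have hne : ((ε * a : ℤ) : 𝓞 (fx D.σ)) ≠ 0 := by
    rw [Int.cast_ne_zero]
    exact mul_ne_zero hε0 (by exact_mod_cast ha0)
  obtain ⟨J, hJ⟩ := exists_sq_ideal hne h
  have hJ' : J ^ 2 = Ideal.span {(a : 𝓞 (fx D.σ))} := by
    rw [hJ]
    rcases hε with rfl | rfl
    · simp
    · rw [Ideal.span_singleton_eq_span_singleton]
      exact ⟨-1, by simp⟩
  have hpa : ¬ p ∣ a := by
    intro hpa
    obtain ⟨B, hB⟩ := exists_sq_ideal_prime hsq hpa hJ'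
    exact hpd (dvd_radicand' D.v4 hp hp2 hB D.q1 D.σ1 D.τ1)
  have hval : padicValRat p c = 2 * padicValRat p ((b : ℚ) / c.den) := by
    conv_lhs => rw [hceq]
    rw [padicValRat.mul (mul_ne_zero hεQ haQ) (pow_ne_zero 2 (div_ne_zero hbQ hden)),
      padicValRat.pow, padicValRat.mul hεQ haQ]
    have h1 : padicValRat p (ε : ℚ) = 0 := by
      rcases hε with rfl | rfl
      · simp
      · simp
    have h2 : padicValRat p (a : ℚ) = 0 := by
      rw [padicValRat.of_nat, padicValNat.eq_zero_of_not_dvd hpa]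
      rfl
    rw [h1, h2]
    push_cast
    ring
  rw [vv, hval]
  push_cast
  have h2 : (2 : ZMod 2) = 0 := by decide
  rw [h2, zero_mul]

end field

end Pool.Agent.Helper81.BQ
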